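import Pool.Agent.H17.CI.TargetsX
import Pool.Agent.H52.VG.RS
import Pool.Agent.H27.LV.Gen
import Pool.Agent.H97.VG.EV

/-!
# No exceptional lines through general points: dimension count
-/

set_option autoImplicit false

namespace Pool.Agent.H49.CI

open MvPolynomial SC Pool.Agent.H27.LV Pool.Agent.H17.VG Pool.Agent.H17.CI

section
variable {L : Type} [Field L]

/-- a derivation over the integers as a derivation over the rational numbers -/
noncomputable def ratD [CharZero L] (θ : Derivation ℤ L L) : Derivation ℚ L L where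
  toFun := θ
  map_add' := map_add θ
  map_smul' q x := by
    rw [RingHom.id_apply]
    exact map_rat_smul θ q x
  map_one_eq_zero' := θ.map_one_eq_zero
  leibniz' := θ.leibniz

theorem pD_one {R : Type} [Field R] [Algebra R L] (θ : Derivation R L L) :
    pD θ (1 : Polynomial L) = 0 := by
  rw [← Polynomial.C_1, Pool.Agent.H97.VG.pD_C, Derivation.map_one_eq_zero, Polynomial.C_0]

theorem pD_pow {R : Type} [Field R] [Algebra R L] (θ : Derivation R L L) (P : Polynomial L)
    (a : ℕ) : pD θ (P ^ a) = (a : Polynomial L) * P ^ (a - 1) * pD θ P := by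
  induction a with
  | zero => rw [pow_zero, pD_one, Nat.cast_zero, zero_mul, zero_mul]
  | succ a ih =>
    rw [pow_succ, Pool.Agent.H97.VG.pD_mul, ih, Nat.add_sub_cancel]
    rcases Nat.eq_zero_or_pos a with h | h
    · rw [h]; simp
    · obtain ⟨b, rfl⟩ : ∃ b, a = b + 1 := ⟨a - 1, by omega⟩
      rw [Nat.add_sub_cancel]
      push_cast
      ring

/-- the extra vector -/
theorem pD_exc {R : Type} [Field R] [Algebra R L] (θ : Derivation R L L) (f α : L) (a : ℕ) :
    pD θ (Polynomial.C f * (1 + Polynomial.C α * Polynomial.X) ^ a) =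
      Polynomial.C (θ f) * (1 + Polynomial.C α * Polynomial.X) ^ a +
      Polynomial.C (θ α) * (Polynomial.C f * (a : Polynomial L) * Polynomial.X *
        (1 + Polynomial.C α * Polynomial.X) ^ (a - 1)) := by
  rw [Pool.Agent.H97.VG.pD_mul, Pool.Agent.H97.VG.pD_C, pD_pow, Pool.Agent.H97.VG.pD_add, pD_one,
    Pool.Agent.H97.VG.pD_mul, Pool.Agent.H97.VG.pD_C, Pool.Agent.H97.VG.pD_X]
  ring

theorem deriv_exc (f α : L) (a : ℕ) :
    Polynomial.X * Polynomial.derivative
      (Polynomial.C f * (1 + Polynomial.C α * Polynomial.X) ^ a) =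
      Polynomial.C α * (Polynomial.C f * (a : Polynomial L) * Polynomial.X *
        (1 + Polynomial.C α * Polynomial.X) ^ (a - 1)) := by
  rw [Polynomial.derivative_mul, Polynomial.derivative_pow]
  simp only [Polynomial.derivative_C, map_add, Polynomial.derivative_one,
    Polynomial.derivative_mul, Polynomial.derivative_X, map_natCast]
  ring

variable {n : ℕ}

theorem coeff_frm {e : ℕ} (c : Mon (n + 1) e → L) (b : Mon (n + 1) e) :
    coeff (fs b.1) (frm c) = c b := by
  simp only [frm, coeff_sum, coeff_C_mul, coeff_mono]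
  rw [Finset.sum_eq_single b (by
    intro b' _ hb
    rw [if_neg (fun h => hb (Subtype.ext h)), mul_zero]) (by simp)]
  simp

theorem cD_frm {R k : Type} [Field R] [Algebra R L] [Field k] [Algebra k L] {e : ℕ}
    (θ : Derivation R L L) (t : Mon (n + 1) e → k) (G : MvPolynomial (Fin (n + 1)) L)
    (hG : G.IsHomogeneous e) (h : ∀ M, θ (algebraMap k L (t M)) = coeff (fs M.1) G) :
    cD θ (up L (frm t)) = G := by
  have h1 : (up L (frm t)).IsHomogeneous e := (frm_homog t).map _
  have h2 := Pool.Agent.H97.VG.cD_homog θ _ e h1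
  rw [← frm_coeff h2, ← frm_coeff hG]
  congr 1
  funext M
  rw [Pool.Agent.H97.VG.cD_coeff]
  unfold up
  rw [coeff_map, coeff_frm, h]

end

section
variable {L : Type} [Field L] {n : ℕ} {ι : Type} [Fintype ι]

open scoped Classical in
/-- the vectors of the dimension count -/
noncomputable def vJ (Z : Finset ι) (B : Finset (Fin n)) (F : Tup ι L n) (x y : Fin (n + 1) → L)
    (f : ι → L) (α : L) (a : ι → ℕ) :
    ({b : Fin n // ¬ b ∈ B} ⊕ (Fin n ⊕ ({i : ι // ¬ i ∈ Z} ⊕ Unit))) → (ι → Polynomial L)
  | Sum.inl b => fun i => res x y (pderiv b.1.succ (F i))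
  | Sum.inr (Sum.inl b) => fun i => Polynomial.X * res x y (pderiv b.succ (F i))
  | Sum.inr (Sum.inr (Sum.inl i0)) =>
    Pi.single i0.1 ((1 + Polynomial.C α * Polynomial.X) ^ a i0.1)
  | Sum.inr (Sum.inr (Sum.inr _)) => fun i => if i ∈ Z then 0 else
    Polynomial.C (f i) * (a i : Polynomial L) * Polynomial.X *
      (1 + Polynomial.C α * Polynomial.X) ^ (a i - 1)

theorem sum_coord (x y w : Fin (n + 1) → L) (hw : w 0 = 0) (G : MvPolynomial (Fin (n + 1)) L) :
    ∑ b : Fin n, w b.succ • res x y (pderiv b.succ G) = res x y (dir w G) := by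
  rw [Pool.Agent.H52.VG.res_dir_smul, Fin.sum_univ_succ, hw, Polynomial.C_0, zero_mul, zero_add]
  exact Finset.sum_congr rfl fun b _ => by rw [Polynomial.smul_eq_C_mul]

open scoped Classical in
theorem sum_vJ (Z : Finset ι) (B : Finset (Fin n)) (F : Tup ι L n) (x y : Fin (n + 1) → L)
    (f : ι → L) (α : L) (a : ι → ℕ) (u v : Fin (n + 1) → L) (hu0 : u 0 = 0) (hv0 : v 0 = 0)
    (hu : ∀ b ∈ B, u b.succ = 0) (w : ι → L) (s : L) (i : ι) :
    (∑ j, (Sum.elim (fun b : {b : Fin n // ¬ b ∈ B} => u b.1.succ)
      (Sum.elim (fun b : Fin n => v b.succ) (Sum.elim (fun i : {i : ι // ¬ i ∈ Z} => w i.1)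
        fun _ : Unit => s))) j • vJ Z B F x y f α a j) i =
      res x y (dir u (F i)) + Polynomial.X * res x y (dir v (F i)) +
      ((if i ∈ Z then 0 else Polynomial.C (w i) * (1 + Polynomial.C α * Polynomial.X) ^ a i) +
      Polynomial.C s * (if i ∈ Z then 0 else
        Polynomial.C (f i) * (a i : Polynomial L) * Polynomial.X *
          (1 + Polynomial.C α * Polynomial.X) ^ (a i - 1))) := by
  rw [Finset.sum_apply, Fintype.sum_sum_type, Fintype.sum_sum_type, Fintype.sum_sum_type]
  simp only [Sum.elim_inl, Sum.elim_inr, Pi.smul_apply, vJ, Finset.univ_unique,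
    Finset.sum_singleton]
  rw [add_assoc]
  congr 1
  · rw [← sum_coord x y u hu0]
    have h1 := Fintype.sum_subtype_add_sum_subtype (fun b => b ∈ B)
      (fun b : Fin n => u b.succ • res x y (pderiv b.succ (F i)))
    refine Eq.trans (Eq.symm ?_) h1
    convert zero_add _
    exact Finset.sum_eq_zero fun b _ => by rw [hu b.1 b.2, zero_smul]
  congr 1
  · rw [← sum_coord x y v hv0, Finset.mul_sum]
    exact Finset.sum_congr rfl fun b _ => by rw [mul_smul_comm]
  congr 1
  · by_cases hi : i ∈ Z
    · rw [if_pos hi]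
      refine Finset.sum_eq_zero fun j _ => ?_
      have h2 : i ≠ j.1 := fun h => j.2 (by rw [← h]; exact hi)
      rw [Pi.single_eq_of_ne h2, smul_zero]
    · rw [if_neg hi, Finset.sum_eq_single (⟨i, hi⟩ : {i : ι // ¬ i ∈ Z})]
      · rw [Pi.single_eq_same, Polynomial.smul_eq_C_mul]
      · intro j _ hj
        rw [Pi.single_eq_of_ne (fun h => hj (Subtype.ext h.symm)), smul_zero]
      · intro h
        exact absurd (Finset.mem_univ _) h
  · rw [Polynomial.smul_eq_C_mul]

theorem card_le_of_mem {e : ι → ℕ} (S : Submodule L (ι → Polynomial L)) [Module.Finite L S]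
    (h : ∀ P : ι → Polynomial L, (∀ i, (P i).natDegree ≤ e i + 1) → P ∈ S) :
    ∑ i, (e i + 2) ≤ Module.finrank L S := by
  classical
  let w : (Σ i, Fin (e i + 2)) → (ι → Polynomial L) := fun s =>
    Pi.single s.1 (Polynomial.monomial (s.2 : ℕ) (1 : L))
  have hw : LinearIndependent L w := by
    refine Pi.linearIndependent_single (fun i (j : Fin (e i + 2)) =>
      (Polynomial.monomial (j : ℕ) (1 : L) : Polynomial L)) fun i => ?_
    have h1 := (Polynomial.basisMonomials L).linearIndependent.comp
      (fun j : Fin (e i + 2) => (j : ℕ)) Fin.val_injective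
    convert h1 using 1
    funext j
    rw [Function.comp_apply, Polynomial.coe_basisMonomials]
  have hm : ∀ s, w s ∈ S := by
    intro s
    refine h _ fun i => ?_
    by_cases hi : i = s.1
    · subst hi
      have h2 : w s s.1 = Polynomial.monomial (s.2 : ℕ) (1 : L) := Pi.single_eq_same _ _
      rw [h2]
      have h3 := Polynomial.natDegree_monomial_le (m := (s.2 : ℕ)) (1 : L)
      have h4 := s.2.2
      omega
    · have h2 : w s i = 0 := Pi.single_eq_of_ne hi _
      rw [h2, Polynomial.natDegree_zero]
      exact Nat.zero_le _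
  let w' : (Σ i, Fin (e i + 2)) → S := fun s => ⟨w s, hm s⟩
  have hw' : LinearIndependent L w' := LinearIndependent.of_comp S.subtype hw
  have h5 := hw'.fintype_card_le_finrank
  rw [Fintype.card_sigma] at h5
  simpa using h5

end

theorem pf_XMT (hXDD : T_XDD) : T_XMT := by
  intro k L _ _ _ _ n ι _ e Z c hn hc x y B hx0 hind hB hy0 hy hex
  classical
  have : CharZero L := charZero_of_injective_algebraMap (algebraMap k L).injective
  obtain ⟨hz, α, hnz⟩ := hex
  have hnz' : ∃ a : ι → ℕ, ∀ i, i ∉ Z → res x y (upT L (frmT c) i) =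
      Polynomial.C (eval x (upT L (frmT c) i)) *
        (1 + Polynomial.C α * Polynomial.X) ^ (a i) := by
    have h2 : ∀ i, ∃ a : ℕ, i ∉ Z → res x y (upT L (frmT c) i) =
        Polynomial.C (eval x (upT L (frmT c) i)) *
          (1 + Polynomial.C α * Polynomial.X) ^ a := by
      intro i
      by_cases hi : i ∈ Z
      · exact ⟨0, fun h => absurd hi h⟩
      · obtain ⟨b, hb⟩ := hnz i hi
        exact ⟨b, fun _ => hb⟩
    choose a ha using h2
    exact ⟨a, ha⟩
  obtain ⟨a, ha⟩ := hnz'
  let F : Tup ι L n := upT L (frmT c)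
  let f : ι → L := fun i => eval x (F i)
  let v := vJ Z B F x y f α a
  have hF : ∀ i, (F i).IsHomogeneous (e i + 1) := fun i => (frm_homog _).map _
  have hI : Indep x y := by
    unfold Indep
    rw [LinearIndependent.pair_iff]
    intro s t hst
    have h1 := congrFun hst 0
    rw [Pi.add_apply, Pi.smul_apply, Pi.smul_apply, hx0, hy0, smul_eq_mul, smul_zero, mul_one,
      add_zero, Pi.zero_apply] at h1
    refine ⟨h1, ?_⟩
    rw [h1, zero_smul, zero_add] at hst
    exact (smul_eq_zero.1 hst).resolve_right hy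
  -- all families are combinations
  have hspan : ∀ P : ι → Polynomial L, (∀ i, (P i).natDegree ≤ e i + 1) →
      P ∈ Submodule.span L (Set.range v) := by
    intro P hP
    have hG : ∀ i, ∃ G : MvPolynomial (Fin (n + 1)) L, G.IsHomogeneous (e i + 1) ∧
        res x y G = P i := fun i => Pool.Agent.H52.VG.ro L n (e i + 1) x y hI (P i) (hP i)
    choose G hGh hGr using hG
    obtain ⟨θ, hθc, hθx⟩ := hXDD k L _ _ c (fun b : B => x b.1.succ) hc hind
      (fun s => coeff (fs s.2.1) (G s.1))
    let τ : Op ℚ L n := (ratD θ, 0)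
    have hθ : ∀ u, ratD θ u = θ u := fun u => rfl
    have hopV : ∀ z : Fin (n + 1) → L, opV τ z = fun i => θ (z i) := by
      intro z
      funext i
      unfold opV
      simp [τ, hθ]
    have hopF : ∀ i, opF τ (F i) = G i := by
      intro i
      unfold opF
      have h2 : cD τ.1 (F i) = G i := by
        refine cD_frm (ratD θ) _ _ (hGh i) fun M => ?_
        exact hθc ⟨i, M⟩
      rw [h2]
      simp [τ]
    have hre : ∀ i, pD (ratD θ) (res x y (F i)) = P i + res x y (dir (fun j => θ (x j)) (F i)) +
        Polynomial.X * res x y (dir (fun j => θ (y j)) (F i)) := by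
      intro i
      have h2 := Pool.Agent.H97.VG.re' τ (F i) x y
      rw [hopF, hGr, hopV, hopV] at h2
      exact h2
    have hsum : P = ∑ j, (Sum.elim (fun b : {b : Fin n // ¬ b ∈ B} =>
        (fun i => - θ (x i)) b.1.succ)
      (Sum.elim (fun b : Fin n => (fun i => - θ (y i)) b.succ)
        (Sum.elim (fun i : {i : ι // ¬ i ∈ Z} => (fun i => θ (f i)) i.1)
        fun _ : Unit => θ α))) j • v j := by
      funext i
      have h3 := sum_vJ Z B F x y f α a (fun i => - θ (x i)) (fun i => - θ (y i))
        (by simp only [hx0]; rw [Derivation.map_one_eq_zero, neg_zero])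
        (by simp only [hy0]; rw [map_zero, neg_zero])
        (fun b hb => by
          have := hθx ⟨b, hb⟩
          simp only at this
          rw [this, neg_zero]) (fun i => θ (f i)) (θ α) i
      refine Eq.trans ?_ h3.symm
      have hneg : ∀ z : Fin (n + 1) → L, res x y (dir (fun i => - θ (z i)) (F i)) =
          - res x y (dir (fun i => θ (z i)) (F i)) := by
        intro z
        rw [Pool.Agent.H52.VG.res_dir_smul, Pool.Agent.H52.VG.res_dir_smul,
          ← Finset.sum_neg_distrib]
        refine Finset.sum_congr rfl fun j _ => ?_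
        rw [Polynomial.C_neg, neg_mul]
      rw [hneg, hneg]
      by_cases hi : i ∈ Z
      · have h4 := hre i
        have h5 : res x y (F i) = 0 := hz i hi
        rw [h5, Pool.Agent.H97.VG.pD_zero] at h4
        rw [if_pos hi, if_pos hi]
        linear_combination -h4
      · have h4 := hre i
        have h5 : res x y (F i) = Polynomial.C (f i) *
            (1 + Polynomial.C α * Polynomial.X) ^ (a i) := ha i hi
        rw [h5, pD_exc, hθ, hθ] at h4
        rw [if_neg hi, if_neg hi]
        linear_combination -h4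
    rw [hsum]
    exact Submodule.sum_mem _ fun j _ => Submodule.smul_mem _ _
      (Submodule.subset_span (Set.mem_range_self j))
  -- the dimension
  have hfin : Module.Finite L (Submodule.span L (Set.range v)) :=
    Module.Finite.span_of_finite L (Set.finite_range v)
  have hdim := card_le_of_mem (e := e) (Submodule.span L (Set.range v)) hspan
  have hcard : Fintype.card ({b : Fin n // ¬ b ∈ B} ⊕ (Fin n ⊕ ({i : ι // ¬ i ∈ Z} ⊕ Unit))) ≤
      (Set.range v).finrank L := by
    refine le_trans ?_ hdim
    rw [Fintype.card_sum, Fintype.card_sum, Fintype.card_sum, Fintype.card_subtype_compl,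
      Fintype.card_subtype_compl, Fintype.card_fin, Fintype.card_unit]
    have h1 : Fintype.card {b : Fin n // b ∈ B} = B.card := Fintype.card_coe B
    have h2 : Fintype.card {i : ι // i ∈ Z} = Z.card := Fintype.card_coe Z
    have h3 : Z.card ≤ Fintype.card ι := Finset.card_le_univ Z
    have h4 : ∑ i, (e i + 2) = ∑ i, (e i + 1) + Fintype.card ι := by
      rw [Fintype.card_eq_sum_ones, ← Finset.sum_add_distrib]
    rw [h1, h2, h4]
    omega
  have hli : LinearIndependent L v := linearIndependent_iff_card_le_finrank_span.2 hcard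
  -- the relation
  have hrel : ∑ j, (Sum.elim (fun b : {b : Fin n // ¬ b ∈ B} =>
        (fun _ : Fin (n + 1) => (0 : L)) b.1.succ)
      (Sum.elim (fun b : Fin n => y b.succ)
        (Sum.elim (fun i : {i : ι // ¬ i ∈ Z} => (fun _ => (0 : L)) i.1)
        fun _ : Unit => - α))) j • v j = 0 := by
    funext i
    refine (sum_vJ Z B F x y f α a (fun _ => 0) y rfl hy0 (fun _ _ => rfl) (fun _ => 0) (-α) i).trans
      ?_
    have h1 : res x y (dir (fun _ => (0 : L)) (F i)) = 0 := by
      rw [Pool.Agent.H52.VG.res_dir_smul]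
      refine Finset.sum_eq_zero fun j _ => ?_
      rw [Polynomial.C_0, zero_mul]
    rw [h1, ← Pool.Agent.H52.VG.res_deriv]
    by_cases hi : i ∈ Z
    · have h5 : res x y (F i) = 0 := hz i hi
      rw [h5, if_pos hi, if_pos hi]
      simp
    · have h5 : res x y (F i) = Polynomial.C (f i) *
          (1 + Polynomial.C α * Polynomial.X) ^ (a i) := ha i hi
      rw [h5, if_neg hi, if_neg hi, deriv_exc, Polynomial.C_neg, Polynomial.C_0, Pi.zero_apply]
      ring
  have hq : ∀ q : Fin n, y q.succ = 0 := fun q =>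
    Fintype.linearIndependent_iff.1 hli _ hrel (Sum.inr (Sum.inl q))
  apply hy
  funext i
  refine Fin.cases ?_ (fun j => ?_) i
  · exact hy0
  · exact hq j

end Pool.Agent.H49.CI
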