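import Pool.Agent.H17.CI.TargetsX

/-!
# Elimination relative to a point
-/

set_option autoImplicit false

namespace Pool.Agent.H49.CI

open MvPolynomial SC Pool.Agent.H27.LV Pool.Agent.H17.VG Pool.Agent.H17.CI

theorem pf_XEL : T_XEL := by
  intro k _ σ τ I Ω0 _ _ x0
  by_cases h : ∃ Φ : MvPolynomial σ k, aeval x0 Φ ≠ 0 ∧ rename Sum.inl Φ ∈ Ideal.span I
  · exact Or.inl h
  right
  push Not at h
  let S0 : Submonoid (MvPolynomial σ k) :=
    { carrier := {Φ | aeval x0 Φ ≠ 0}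
      mul_mem' := fun {a b} ha hb => by
        change aeval x0 (a * b) ≠ 0
        rw [map_mul]
        exact mul_ne_zero ha hb
      one_mem' := by
        change aeval x0 (1 : MvPolynomial σ k) ≠ 0
        rw [map_one]
        exact one_ne_zero }
  let S : Submonoid (MvPolynomial (σ ⊕ τ) k) :=
    S0.map (rename (R := k) (Sum.inl : σ → σ ⊕ τ)).toRingHom
  have hd : Disjoint ((Ideal.span I : Ideal (MvPolynomial (σ ⊕ τ) k)) : Set _)
      (S : Set (MvPolynomial (σ ⊕ τ) k)) := by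
    rw [Set.disjoint_left]
    rintro f hf ⟨Φ, hΦ, rfl⟩
    exact h Φ hΦ hf
  obtain ⟨P, hP, hIP, hPS⟩ := Ideal.exists_le_prime_disjoint _ S hd
  haveI := hP
  let φ : MvPolynomial (σ ⊕ τ) k →ₐ[k] FractionRing (MvPolynomial (σ ⊕ τ) k ⧸ P) :=
    (IsScalarTower.toAlgHom k (MvPolynomial (σ ⊕ τ) k ⧸ P) _).comp (Ideal.Quotient.mkₐ k P)
  have hφ : ∀ f, φ f = 0 ↔ f ∈ P := by
    intro f
    change algebraMap (MvPolynomial (σ ⊕ τ) k ⧸ P) (FractionRing (MvPolynomial (σ ⊕ τ) k ⧸ P))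
      (Ideal.Quotient.mk P f) = 0 ↔ f ∈ P
    rw [FaithfulSMul.algebraMap_eq_zero_iff, Ideal.Quotient.eq_zero_iff_mem]
  have he : aeval (Sum.elim (fun i => φ (X (Sum.inl i))) (fun j => φ (X (Sum.inr j)))) = φ := by
    refine algHom_ext fun i => ?_
    rw [aeval_X]
    rcases i with i | j
    · rfl
    · rfl
  refine ⟨FractionRing (MvPolynomial (σ ⊕ τ) k ⧸ P), inferInstance, inferInstance,
    fun i => φ (X (Sum.inl i)), fun j => φ (X (Sum.inr j)), fun f hf => ?_, fun Φ hΦ => ?_⟩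
  · rw [he, hφ]
    exact hIP (Ideal.subset_span hf)
  · by_contra h0
    have h1 : φ (rename Sum.inl Φ) = 0 := by
      rw [← he, aeval_rename]
      exact hΦ
    rw [hφ] at h1
    exact (Set.disjoint_left.1 hPS) h1 ⟨Φ, h0, rfl⟩

end Pool.Agent.H49.CI
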