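import Pool.Agent.H17.CI.TargetsX
import Pool.Agent.H52.VG.RS
import Pool.Agent.H27.LV.Gen

/-!
# The exceptional lines do not cover the variety
-/

set_option autoImplicit false

namespace Pool.Agent.H49.CI

open MvPolynomial SC Pool.Agent.H27.LV Pool.Agent.H17.VG Pool.Agent.H17.CI

section
variable {K : Type} [Field K] {n : ℕ}

theorem up_hom {k : Type} [Field k] [Algebra k K] {e : ℕ} {G : MvPolynomial (Fin (n + 1)) k}
    (hG : G.IsHomogeneous e) : (up K G).IsHomogeneous e := hG.map _

/-- the direction multiplied by a constant -/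
theorem res_scale (x y y' : Fin (n + 1) → K) (s : K) (hy : ∀ i, y' i = y i * s)
    (G : MvPolynomial (Fin (n + 1)) K) :
    res x y' G = (res x y G).comp (Polynomial.C s * Polynomial.X) := by
  induction G using MvPolynomial.induction_on with
  | C a => rw [Pool.Agent.H52.VG.res_C, Pool.Agent.H52.VG.res_C, Polynomial.C_comp]
  | add p q hp hq =>
    rw [Pool.Agent.H52.VG.res_add, Pool.Agent.H52.VG.res_add, hp, hq, Polynomial.add_comp]
  | mul_X p i hp =>
    rw [Pool.Agent.H52.VG.res_mul, Pool.Agent.H52.VG.res_mul, hp, Polynomial.mul_comp]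
    congr 1
    rw [Pool.Agent.H52.VG.res_X, Pool.Agent.H52.VG.res_X, hy]
    simp only [Polynomial.add_comp, Polynomial.mul_comp, Polynomial.C_comp, Polynomial.X_comp,
      Polynomial.C_mul]
    ring

theorem natDegree_exc (u α : K) (a : ℕ) (hu : u ≠ 0) (hα : α ≠ 0) :
    (Polynomial.C u * (1 + Polynomial.C α * Polynomial.X) ^ a : Polynomial K).natDegree = a := by
  rw [Polynomial.natDegree_C_mul hu, Polynomial.natDegree_pow]
  have h1 : (1 + Polynomial.C α * Polynomial.X : Polynomial K) =
      Polynomial.C α * Polynomial.X + Polynomial.C 1 := by rw [Polynomial.C_1]; ring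
  rw [h1, Polynomial.natDegree_linear hα, mul_one]

end

theorem pf_XFT (hGPT : T_GPT) (hNZT : T_NZT) (hXMT : T_XMT) (hXEL : T_XEL) (hXPO : T_XPO)
    (hNST : T_NST) : T_XFT := by
  intro k _ _ _ n ι _ e Z c hZn hn hc
  classical
  obtain ⟨Ω0, iF, iA, x0, B, h1, hB, hind, hon⟩ := hGPT k n ι e Z c hZn hc
  let _ := iF
  let _ := iA
  let x0' : Fin n → Ω0 := fun a => x0 a.succ
  have hx0 : (Fin.cons 1 x0' : Fin (n + 1) → Ω0) = x0 := by
    funext i
    refine Fin.cases ?_ (fun j => ?_) i
    · rw [Fin.cons_zero, h1]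
    · rw [Fin.cons_succ]
  -- the polynomials
  have hI : ∀ (q : Fin n) (a : ι → ℕ), ∃ Φ : MvPolynomial (Fin n) k, aeval x0' Φ ≠ 0 ∧
      ∀ (K : Type) [Field K] [Algebra k K] (x y : Fin n → K) (α : K), y q = 1 →
        (∀ i ∈ Z, res (Fin.cons 1 x : Fin (n + 1) → K) (Fin.cons 0 y) (upT K (frmT c) i) = 0) →
        (∀ i, i ∉ Z → res (Fin.cons 1 x : Fin (n + 1) → K) (Fin.cons 0 y) (upT K (frmT c) i) =
          Polynomial.C (eval (Fin.cons 1 x : Fin (n + 1) → K) (upT K (frmT c) i)) *
            (1 + Polynomial.C α * Polynomial.X) ^ a i) → aeval x Φ = 0 := by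
    intro q a
    obtain ⟨I, hI⟩ := hXPO k n ι (frmT c) Z q a
    rcases hXEL k (Fin n) (Fin n ⊕ Unit) I Ω0 x0' with ⟨Φ, hΦ, hspan⟩ | ⟨Ω, iF', iA', x, y, hf, hsp⟩
    · refine ⟨Φ, hΦ, ?_⟩
      intro K _ _ x y α hq hz hnz
      have h2 := (hI K x y α).2 ⟨hq, hz, hnz⟩
      have h3 : ∀ p ∈ Ideal.span I, aeval (Sum.elim x (Sum.elim y fun _ => α)) p = 0 := by
        intro p hp
        have h4 : Ideal.span I ≤ RingHom.ker
            (aeval (R := k) (Sum.elim x (Sum.elim y fun _ : Unit => α))) := by
          rw [Ideal.span_le]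
          intro f hf
          exact h2 f hf
        exact h4 hp
      have h5 := h3 _ hspan
      rw [aeval_rename] at h5
      exact h5
    · exfalso
      let _ := iF'
      let _ := iA'
      let y' : Fin n → Ω := fun i => y (Sum.inl i)
      let α : Ω := y (Sum.inr ())
      have hy : y = Sum.elim y' fun _ => α := by
        funext i
        rcases i with i | i <;> rfl
      rw [hy] at hf
      obtain ⟨hq, hz, hnz⟩ := (hI Ω x y' α).1 hf
      have : CharZero Ω := charZero_of_injective_algebraMap (algebraMap k Ω).injective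
      refine hXMT k Ω n ι e Z c hn hc (Fin.cons 1 x) (Fin.cons 0 y') B (Fin.cons_zero _ _) ?_ hB
        (Fin.cons_zero _ _) ?_ ⟨hz, α, fun i hi => ⟨a i, hnz i hi⟩⟩
      · rw [algebraicIndependent_iff]
        intro p hp
        have h2 : aeval x (rename (fun b : B => b.1) p) = 0 := by
          rw [aeval_rename]
          exact hp
        have h3 := hsp _ h2
        rw [aeval_rename] at h3
        exact (algebraicIndependent_iff.1 hind) p h3
      · intro h0
        have h2 := congrFun h0 q.succ
        rw [Fin.cons_succ, hq] at h2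
        exact one_ne_zero h2
  choose Φ hΦ hΦ' using hI
  let Ψ : MvPolynomial (Fin n) k := ∏ q : Fin n, ∏ a : (i : ι) → Fin (e i + 2),
    Φ q fun i => (a i : ℕ)
  have hΨ0 : aeval x0' Ψ ≠ 0 := by
    simp only [Ψ, map_prod]
    exact Finset.prod_ne_zero_iff.2 fun q _ => Finset.prod_ne_zero_iff.2 fun a _ => hΦ q _
  -- dehomogenization
  let deh : MvPolynomial (Fin (n + 1)) k →ₐ[k] MvPolynomial (Fin n) k :=
    aeval (Fin.cons 1 X : Fin (n + 1) → MvPolynomial (Fin n) k)
  have hdeh : ∀ (K : Type) [Field K] [Algebra k K] (x : Fin n → K)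
      (G : MvPolynomial (Fin (n + 1)) k),
      aeval x (deh G) = eval (Fin.cons 1 x : Fin (n + 1) → K) (up K G) := by
    intro K _ _ x G
    simp only [deh, up]
    rw [eval_map, ← aeval_def]
    induction G using MvPolynomial.induction_on with
    | C a => simp
    | add p q hp hq => simp only [map_add, hp, hq]
    | mul_X p i hp =>
      simp only [map_mul, hp, aeval_X]
      congr 1
      refine Fin.cases ?_ (fun j => ?_) i
      · simp
      · simp
  have hnz0 : ∀ j, j ∉ Z → eval x0 (upT Ω0 (frmT c) j) ≠ 0 := by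
    intro j hj h0
    have : CharZero Ω0 := charZero_of_injective_algebraMap (algebraMap k Ω0).injective
    have h2 := hNZT k Ω0 n ι e c hc x0 B h1 hind (insert j Z) (by
      intro i hi
      rcases Finset.mem_insert.1 hi with h | h
      · rw [h]; exact h0
      · exact hon i h)
    rw [Finset.card_insert_of_notMem hj] at h2
    omega
  obtain ⟨x, hxE, hxg⟩ := hNST k n Ω0 x0' {f | ∃ i ∈ Z, f = deh (frmT c i)}
    (Ψ * ∏ i : ι, if i ∈ Z then 1 else deh (frmT c i))
    (by
      rintro f ⟨i, hi, rfl⟩
      rw [hdeh, hx0]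
      exact hon i hi)
    (by
      rw [map_mul]
      refine mul_ne_zero hΨ0 ?_
      rw [map_prod]
      refine Finset.prod_ne_zero_iff.2 fun i _ => ?_
      split_ifs with hi
      · rw [map_one]; exact one_ne_zero
      · rw [hdeh, hx0]
        exact hnz0 i hi)
  have hevk : ∀ (G : MvPolynomial (Fin (n + 1)) k),
      eval x (deh G) = eval (Fin.cons 1 x : Fin (n + 1) → k) G := by
    intro G
    have h2 := hdeh k x G
    have h3 : ∀ p : MvPolynomial (Fin n) k, aeval x p = eval x p := fun p => by
      rw [← coe_aeval_eq_eval]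
      rfl
    rw [h3] at h2
    rw [h2]
    congr 1
    exact MvPolynomial.map_id G
  refine ⟨Ψ, ⟨x, ?_, ?_⟩, ?_⟩
  · intro i
    constructor
    · intro h0
      by_contra hi
      rw [← hevk] at h0
      apply hxg
      have h2 : eval x (∏ j : ι, if j ∈ Z then 1 else deh (frmT c j)) = 0 := by
        rw [map_prod]
        refine Finset.prod_eq_zero (Finset.mem_univ i) ?_
        rw [if_neg hi]
        exact h0
      rw [RingHom.map_mul, h2, mul_zero]
    · intro hi
      rw [← hevk]
      exact hxE _ ⟨i, hi, rfl⟩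
  · intro h0
    apply hxg
    rw [RingHom.map_mul, h0, zero_mul]
  · intro K _ _ x y hx1 hy0 hy hxZ hex
    obtain ⟨hz, α, hnz⟩ := hex
    have hq : ∃ q : Fin n, y q.succ ≠ 0 := by
      by_contra hcon
      push Not at hcon
      apply hy
      funext i
      refine Fin.cases ?_ (fun j => ?_) i
      · exact hy0
      · exact hcon j
    obtain ⟨q, hq⟩ := hq
    let x' : Fin n → K := fun a => x a.succ
    let y' : Fin n → K := fun a => y a.succ * (y q.succ)⁻¹
    have hx' : (Fin.cons 1 x' : Fin (n + 1) → K) = x := by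
      funext i
      refine Fin.cases ?_ (fun j => ?_) i
      · rw [Fin.cons_zero, hx1]
      · rw [Fin.cons_succ]
    have hy' : ∀ i, (Fin.cons 0 y' : Fin (n + 1) → K) i = y i * (y q.succ)⁻¹ := by
      intro i
      refine Fin.cases ?_ (fun j => ?_) i
      · rw [Fin.cons_zero, hy0, zero_mul]
      · rw [Fin.cons_succ]
    have hdeg : ∀ i, (upT K (frmT c) i).IsHomogeneous (e i + 1) := fun i =>
      up_hom (frm_homog _)
    -- the exponents
    have hexp : ∃ a : (i : ι) → Fin (e i + 2), ∀ i, i ∉ Z → res x y (upT K (frmT c) i) =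
        Polynomial.C (eval x (upT K (frmT c) i)) *
          (1 + Polynomial.C α * Polynomial.X) ^ (a i : ℕ) := by
      have h2 : ∀ i, ∃ a : Fin (e i + 2), i ∉ Z → res x y (upT K (frmT c) i) =
          Polynomial.C (eval x (upT K (frmT c) i)) *
            (1 + Polynomial.C α * Polynomial.X) ^ (a : ℕ) := by
        intro i
        by_cases hi : i ∈ Z
        · exact ⟨0, fun h => absurd hi h⟩
        obtain ⟨b, hb⟩ := hnz i hi
        by_cases hα : α = 0
        · refine ⟨0, fun _ => ?_⟩
          rw [hb, hα]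
          simp
        · have h3 : eval x (upT K (frmT c) i) ≠ 0 := fun h => hi ((hxZ i).1 h)
          have h4 := Pool.Agent.H52.VG.res_natDegree x y (hdeg i)
          rw [hb, natDegree_exc _ _ _ h3 hα] at h4
          exact ⟨⟨b, by omega⟩, fun _ => hb⟩
      choose a ha using h2
      exact ⟨a, ha⟩
    obtain ⟨a, ha⟩ := hexp
    have hfin : aeval x' (Φ q fun i => (a i : ℕ)) = 0 := by
      refine hΦ' q (fun i => (a i : ℕ)) K x' y' (α * (y q.succ)⁻¹) ?_ ?_ ?_
      · exact mul_inv_cancel₀ hq
      · intro i hi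
        rw [hx', res_scale x y _ _ hy', hz i hi, Polynomial.zero_comp]
      · intro i hi
        rw [hx', res_scale x y _ _ hy', ha i hi]
        simp only [Polynomial.mul_comp, Polynomial.C_comp, Polynomial.pow_comp,
          Polynomial.add_comp, Polynomial.one_comp, Polynomial.X_comp, Polynomial.C_mul]
        rw [mul_assoc]
    simp only [Ψ, map_prod]
    exact Finset.prod_eq_zero (Finset.mem_univ q) (Finset.prod_eq_zero (Finset.mem_univ a) hfin)

end Pool.Agent.H49.CI
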